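import Pool.Agent.helper17.EXC.SpecRA

/-!
# Project EXC, block RA, row QUN (helper44)
-/

set_option autoImplicit false

open Finset

namespace Pool.Agent.EXC

variable {n : ℕ} {F : Type} [Field F]

theorem QUN_xe_zero (C : Matrix (Fin n) (Fin n) ℤ) [IsC C] (a v : Lm C F) : xe C a 0 v = v := by
  unfold xe
  simp

theorem QUN_eq_one (C : Matrix (Fin n) (Fin n) ℤ) [IsC C] (a : Lm C F) (g : Lm C F ≃ₗ[F] Lm C F)
    (h : IsX C a 0 g) : g = 1 := by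
  ext1 v
  rw [h v, QUN_xe_zero]
  rfl

theorem QUN_mem (C : Matrix (Fin n) (Fin n) ℤ) [IsC C] (θ : Fin n → ℤ) {γ : Fin n → ℤ}
    (hγ : ip C γ γ = 2) (hp : 1 ≤ ip C γ θ) {t : F} {g : Lm C F ≃ₗ[F] Lm C F}
    (hg : IsX C (E C γ) t g) : g ∈ UQ C F θ :=
  Subgroup.subset_closure ⟨γ, hγ, hp, t, hg⟩

/-- the key step: the conjugate of a generator -/
theorem QUN_conj (hEXF : EXF_stmt) (hACT : ACT_stmt) (hCOL : COL_stmt)
    (C : Matrix (Fin n) (Fin n) ℤ) [IsC C] (θ : Fin n → ℤ)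
    (hβ : ∀ α, ip C α α = 2 → ∃ β, ip C β β = 2 ∧ ip C α β = -1) {σ γ : Fin n → ℤ}
    (hσ : ip C σ σ = 2) (hγ : ip C γ γ = 2) (hσθ : ip C σ θ = 0) (hp : 1 ≤ ip C γ θ)
    {t c : F} {g x : Lm C F ≃ₗ[F] Lm C F}
    (hg : IsX C (E C σ) t g) (hx : IsX C (E C γ) c x) : g * x * g⁻¹ ∈ UQ C F θ := by
  obtain ⟨-, hE, hEx, -⟩ := hEXF n C F hβ
  obtain ⟨A1, A2, -⟩ := hACT n C F σ t hσ
  have hgG : g ∈ GE C F := Subgroup.subset_closure ⟨σ, hσ, t, hg⟩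
  have hconj : IsX C (g (E C γ)) c (g * x * g⁻¹) := (hEx _ (hE γ hγ)).2.2.2.2.2.2.2.1 g hgG c x hx
  have hlo := (ip_abs_le hσ hγ).1
  have h2 : ip C σ γ ≠ -2 := by
    intro h
    have h1 := eq_neg_of_ip_eq_neg_two hσ hγ h
    rw [h1, ip_neg_left, hσθ] at hp
    omega
  rcases lt_or_ge (ip C σ γ) 0 with h0 | h0
  · have h3 : ip C σ γ = -1 := by omega
    have hroot : ip C (σ + γ) (σ + γ) = 2 := (add_root_iff hσ hγ).2 h3
    have hp' : 1 ≤ ip C (σ + γ) θ := by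
      rw [ip_add_left, hσθ]
      omega
    have h4 : ip C γ (σ + γ) = 1 := by
      rw [ip_add_right, ip_comm C γ σ, h3, hγ]
      norm_num
    obtain ⟨K, -⟩ := hCOL n C F γ (σ + γ) hγ hroot
    obtain ⟨K1, -⟩ := K h4
    obtain ⟨y, -, hy⟩ := (hEx _ (hE (σ + γ) hroot)).2.2.2.2.1 (t * (sg C σ γ : F) * c)
    have h5 : g * x * g⁻¹ = x * y := by
      ext1 v
      rw [hconj v, hg (E C γ), A2 γ hγ h3]
      have h6 := K1 1 (t * (sg C σ γ : F)) c v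
      rw [one_smul, one_mul] at h6
      rw [h6, ← hy v, ← hx (y v)]
      rfl
    rw [h5]
    exact mul_mem (QUN_mem C θ hγ hp hx) (QUN_mem C θ hroot hp' hy)
  · have h3 : g (E C γ) = E C γ := by rw [hg (E C γ), A1 γ hγ h0]
    rw [h3] at hconj
    exact QUN_mem C θ hγ hp hconj

theorem QUN_norm (hEXF : EXF_stmt) (hACT : ACT_stmt) (hCOL : COL_stmt)
    (C : Matrix (Fin n) (Fin n) ℤ) [IsC C] (θ : Fin n → ℤ)
    (hβ : ∀ α, ip C α α = 2 → ∃ β, ip C β β = 2 ∧ ip C α β = -1) {σ : Fin n → ℤ}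
    (hσ : ip C σ σ = 2) (hσθ : ip C σ θ = 0) {t : F} {g : Lm C F ≃ₗ[F] Lm C F}
    (hg : IsX C (E C σ) t g) : ∀ q ∈ UQ C F θ, g * q * g⁻¹ ∈ UQ C F θ := by
  intro q hq
  have key : UQ C F θ ≤ (UQ C F θ).comap (MulAut.conj g).toMonoidHom := by
    have h1 : UQ C F θ = Subgroup.closure {g | ∃ γ, ip C γ γ = 2 ∧ 1 ≤ ip C γ θ ∧
      ∃ t, IsX C (E C γ) t g} := rfl
    rw [show (UQ C F θ ≤ (UQ C F θ).comap (MulAut.conj g).toMonoidHom) =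
      (Subgroup.closure {g | ∃ γ, ip C γ γ = 2 ∧ 1 ≤ ip C γ θ ∧ ∃ t, IsX C (E C γ) t g} ≤
        (UQ C F θ).comap (MulAut.conj g).toMonoidHom) from rfl, Subgroup.closure_le]
    rintro x ⟨γ, hγ, hp, c, hx⟩
    show g * x * g⁻¹ ∈ UQ C F θ
    exact QUN_conj hEXF hACT hCOL C θ hβ hσ hγ hσθ hp hg hx
  exact key hq

theorem QUN (hEXF : EXF_stmt) (hACT : ACT_stmt) (hCOL : COL_stmt) (hDMN : DMN_stmt) (hNBR : NBR_stmt) : QUN_stmt := by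
  intro n C _ F _ j0 θ δ hI u hu
  have hβ := (hNBR n C j0 θ δ hI).1
  obtain ⟨-, hnn, -, -⟩ := hDMN n C j0 θ δ hI
  obtain ⟨-, hE, hEx, -⟩ := hEXF n C F hβ
  have step : ∀ (γ : Fin n → ℤ) (c : F) (x : Lm C F ≃ₗ[F] Lm C F), ip C γ γ = 2 → Pos γ →
      IsX C (E C γ) c x → ∀ y : Lm C F ≃ₗ[F] Lm C F,
      (∃ q ∈ UQ C F θ, ∃ v : Lm C F ≃ₗ[F] Lm C F, v (E C (-θ)) = E C (-θ) ∧ y = q * v) →
      ∃ q ∈ UQ C F θ, ∃ v : Lm C F ≃ₗ[F] Lm C F, v (E C (-θ)) = E C (-θ) ∧ x * y = q * v := by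
    rintro γ c x hγ hp hx y ⟨q, hq, v, hv, rfl⟩
    rcases (hnn γ hp).lt_or_eq with h | h
    · exact ⟨x * q, mul_mem (QUN_mem C θ hγ (by omega) hx) hq, v, hv, by group⟩
    · refine ⟨x * q * x⁻¹, QUN_norm hEXF hACT hCOL C θ hβ hγ h.symm hx q hq, x * v, ?_, by group⟩
      change x (v (E C (-θ))) = _
      rw [hv, hx]
      refine (hACT n C F γ c hγ).1 (-θ) (neg_root C hI.th2) ?_
      rw [ip_neg_right, ← h]
      simp
  have key : ∃ q ∈ UQ C F θ, ∃ v : Lm C F ≃ₗ[F] Lm C F, v (E C (-θ)) = E C (-θ) ∧ u = q * v := by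
    unfold UG at hu
    refine Subgroup.closure_induction_left (p := fun u _ => ∃ q ∈ UQ C F θ,
      ∃ v : Lm C F ≃ₗ[F] Lm C F, v (E C (-θ)) = E C (-θ) ∧ u = q * v) ?_ ?_ ?_ hu
    · exact ⟨1, one_mem _, 1, rfl, by group⟩
    · rintro x ⟨γ, hγ, hp, c, hx⟩ y - hy
      exact step γ c x hγ hp hx y hy
    · rintro x ⟨γ, hγ, hp, c, hx⟩ y - hy
      obtain ⟨z, -, hz⟩ := (hEx _ (hE γ hγ)).2.2.2.2.1 (-c)
      have h1 : IsX C (E C γ) (c + -c) (x * z) :=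
        (hEx _ (hE γ hγ)).2.2.2.2.2.2.2.2 c (-c) x z hx hz
      rw [add_neg_cancel] at h1
      have h2 : z = x⁻¹ := eq_inv_of_mul_eq_one_right (QUN_eq_one C _ _ h1)
      rw [← h2]
      exact step γ (-c) z hγ hp hz y hy
  obtain ⟨q, hq, v, hv, rfl⟩ := key
  refine ⟨q, hq, ?_⟩
  change q (v (E C (-θ))) = _
  rw [hv]

end Pool.Agent.EXC
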