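import Pool.Agent.helper32.EXC.Spec11

/-!
# Project EXC, block r = 11, row ZM2 (helper44)
-/

set_option autoImplicit false

open Finset

namespace Pool.Agent.EXC

theorem T11ZM2_pack {X : Type} [Group X] (P : X → Prop) (y0 y1 y2 y3 y4 : X) (h0 : P y0) (h1 : P y1)
    (h2 : P y2) (h3 : P y3) (h4 : P y4)
    (h : ∀ N : ℕ, (y0 * y1 * y2⁻¹ * y3 * y4⁻¹) ^ N = 1 → 11 ∣ N) :
    ∃ y : Fin 5 → X, (∀ i, P (y i)) ∧ ∀ N : ℕ, (y 0 * y 1 * (y 2)⁻¹ * y 3 * (y 4)⁻¹) ^ N = 1 → 11 ∣ N := by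
  refine ⟨![y0, y1, y2, y3, y4], ?_, h⟩
  intro i
  fin_cases i
  · exact h0
  · exact h1
  · exact h2
  · exact h3
  · exact h4

theorem T11ZM2_g1 {X : Type} [Group X] (t0 t1 t2 t3 t4 b a a' d : X) (h : t4 * a = a') :
    t0 * t1 * (t2 * b) * (t3⁻¹ * b)⁻¹ * (a' * d) * (a * d)⁻¹ = t0 * t1 * t2 * t3 * t4 := by
  subst h
  group

theorem T11ZM2_g2 {X : Type} [Group X] (t0 t1 t2 t3 t4 b b' S R : X) (h : S * R = t0) :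
    R * t1 * (t2 * b) * (t3⁻¹ * b)⁻¹ * (t4 * b') * (S⁻¹ * b')⁻¹ =
      S⁻¹ * (t0 * t1 * t2 * t3 * t4) * S⁻¹⁻¹ := by
  subst h
  group

theorem T11ZM2_h1 {X : Type} [Group X] (t0 t1 t2 t3 t4 b a a' d : X) (h : t4 * a = a')
    (hz : ∀ N : ℕ, (t0 * t1 * t2 * t3 * t4) ^ N = 1 → 11 ∣ N) (N : ℕ)
    (hN : (t0 * t1 * (t2 * b) * (t3⁻¹ * b)⁻¹ * (a' * d) * (a * d)⁻¹) ^ N = 1) : 11 ∣ N := by
  rw [T11ZM2_g1 t0 t1 t2 t3 t4 b a a' d h] at hN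
  exact hz N hN

theorem T11ZM2_h2 {X : Type} [Group X] (t0 t1 t2 t3 t4 b b' S R : X) (h : S * R = t0)
    (hz : ∀ N : ℕ, (t0 * t1 * t2 * t3 * t4) ^ N = 1 → 11 ∣ N) (N : ℕ)
    (hN : (R * t1 * (t2 * b) * (t3⁻¹ * b)⁻¹ * (t4 * b') * (S⁻¹ * b')⁻¹) ^ N = 1) : 11 ∣ N := by
  rw [T11ZM2_g2 t0 t1 t2 t3 t4 b b' S R h, conj_pow] at hN
  have e3 := (mul_inv_eq_one.1 hN)
  exact hz N (mul_eq_left.1 e3)

section
variable {n : ℕ} {F : Type} [Field F]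

theorem T11ZM2_fm_smul_left (C : Matrix (Fin n) (Fin n) ℤ) [IsC C] (c : F) (x y : Lm C F) :
    fm C (c • x) y = c * fm C x y := by
  simp only [fm, Prod.smul_fst, Prod.smul_snd, Pi.smul_apply, smul_eq_mul, mul_add, Finset.mul_sum,
    mul_neg]
  congr 1
  · congr 1
    exact Finset.sum_congr rfl fun i _ => Finset.sum_congr rfl fun j _ => by ring
  · exact Finset.sum_congr rfl fun i _ => by ring

theorem T11ZM2_xe_zero (C : Matrix (Fin n) (Fin n) ℤ) [IsC C] (a v : Lm C F) : xe C a 0 v = v := by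
  unfold xe
  simp

theorem T11ZM2_eq {C : Matrix (Fin n) (Fin n) ℤ} [IsC C] {a : Lm C F} {t : F}
    {g h : Lm C F ≃ₗ[F] Lm C F} (hg : IsX C a t g) (hh : IsX C a t h) : g = h := by
  ext1 v
  rw [hg v, hh v]

theorem T11ZM2_one {C : Matrix (Fin n) (Fin n) ℤ} [IsC C] {a : Lm C F}
    {g : Lm C F ≃ₗ[F] Lm C F} (hg : IsX C a 0 g) : g = 1 := by
  ext1 v
  rw [hg v, T11ZM2_xe_zero]
  rfl

end

theorem T11ZM2 (hNBR : NBR_stmt) (hT11TE8 : T11TE8_stmt) (hT11CV8 : T11CV8_stmt) (hT11OR8 : T11OR8_stmt) (hT11WA8 : T11WA8_stmt) (hT11BEX : T11BEX_stmt) (hT11SGL : T11SGL_stmt) (hPCL : PCL_stmt) (hTPF : TPF_stmt) (hEXF : EXF_stmt) (hXAU : XAU_stmt) : T11ZM2_stmt := by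
  intro _ F _ j0 δ hI σ hσ
  have hβ := (hNBR 8 CartanMatrix.E₈ j0 th8 δ hI).1
  obtain ⟨-, -, hEx, -⟩ := hEXF 8 CartanMatrix.E₈ F hβ
  have hTE := hT11TE8 F hβ
  obtain ⟨cv1, cv2, cv3⟩ := hT11CV8 F hβ
  have hT : ∀ i, IsX CartanMatrix.E₈ (c8 F i) 1 (gw8 F (tw8 i)) := fun i => (hTE i).2.1
  have hC : ∀ i, Ex CartanMatrix.E₈ (c8 F i) := fun i => (hTE i).1
  -- types
  have htp : ∀ a b : Lm CartanMatrix.E₈ F, Ex CartanMatrix.E₈ a → Ex CartanMatrix.E₈ b →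
      fm CartanMatrix.E₈ a b = σ → Tp CartanMatrix.E₈ th8 a b (-2) := by
    intro a b ha hb hab
    obtain ⟨m, -, -, hm⟩ := hPCL 8 CartanMatrix.E₈ F j0 th8 δ hI a b ha hb
    have h1 := (hTPF 8 CartanMatrix.E₈ F th8 hI.th2 hβ a b m hm).2.2.2.2.2.1
    have h2 : m = -2 := h1.1 (by rw [hab]; exact hσ)
    rw [← h2]
    exact hm
  have hCT : ∀ (a b : Lm CartanMatrix.E₈ F) (g h : Lm CartanMatrix.E₈ F ≃ₗ[F] Lm CartanMatrix.E₈ F),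
      Ex CartanMatrix.E₈ a → Ex CartanMatrix.E₈ b → fm CartanMatrix.E₈ a b = σ →
      IsX CartanMatrix.E₈ a 1 g → IsX CartanMatrix.E₈ b 1 h → CT CartanMatrix.E₈ th8 (-2) σ (g * h) :=
    fun a b g h ha hb hab hg hh => ⟨a, b, g, h, htp a b ha hb hab, hab, hg, hh, rfl⟩
  -- inverse and scalars
  have hsc : ∀ (a : Lm CartanMatrix.E₈ F) (c : F) (g : Lm CartanMatrix.E₈ F ≃ₗ[F] Lm CartanMatrix.E₈ F),
      Ex CartanMatrix.E₈ a → IsX CartanMatrix.E₈ a c g → IsX CartanMatrix.E₈ (c • a) 1 g := by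
    intro a c g ha hg v
    rw [hg v, ((hXAU 8 CartanMatrix.E₈ F a (hEx a ha).1).2.2.2 c).2 1 v, mul_one]
  have hinv : ∀ (a : Lm CartanMatrix.E₈ F) (c : F) (g : Lm CartanMatrix.E₈ F ≃ₗ[F] Lm CartanMatrix.E₈ F),
      Ex CartanMatrix.E₈ a → IsX CartanMatrix.E₈ a c g → IsX CartanMatrix.E₈ a (-c) g⁻¹ := by
    intro a c g ha hg
    obtain ⟨h, -, hh⟩ := (hEx a ha).2.2.2.2.1 (-c)
    have h1 := (hEx a ha).2.2.2.2.2.2.2.2 c (-c) g h hg hh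
    rw [add_neg_cancel] at h1
    have h2 : h = g⁻¹ := eq_inv_of_mul_eq_one_right (T11ZM2_one h1)
    rw [← h2]
    exact hh
  have hxs : ∀ a : Lm CartanMatrix.E₈ F, Ex CartanMatrix.E₈ a → ∀ c : F,
      ∃ g : Lm CartanMatrix.E₈ F ≃ₗ[F] Lm CartanMatrix.E₈ F, IsX CartanMatrix.E₈ a c g := by
    intro a ha c
    obtain ⟨g, -, hg⟩ := (hEx a ha).2.2.2.2.1 c
    exact ⟨g, hg⟩
  -- the element z
  have hz : gw8 F zw8 = gw8 F (tw8 0) * gw8 F (tw8 1) * gw8 F (tw8 2) * gw8 F (tw8 3) * gw8 F (tw8 4) := by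
    unfold zw8
    rw [(hT11WA8 F hβ _ (tw8 4)).2.2.1, (hT11WA8 F hβ _ (tw8 3)).2.2.1,
      (hT11WA8 F hβ _ (tw8 2)).2.2.1, (hT11WA8 F hβ _ (tw8 1)).2.2.1]
  have hzN : ∀ N : ℕ, (gw8 F (tw8 0) * gw8 F (tw8 1) * gw8 F (tw8 2) * gw8 F (tw8 3) *
      gw8 F (tw8 4)) ^ N = 1 → 11 ∣ N := by
    intro N hN
    refine hT11OR8 F hβ (gw8 F zw8) (fun v => rfl) N ?_
    rw [hz]
    exact hN
  -- y_1 and y_2
  obtain ⟨b, hb, hb3, hb2⟩ := hT11BEX 8 CartanMatrix.E₈ F j0 th8 δ hI (c8 F 3) (c8 F 2) (hC 3) (hC 2) cv2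
    (-σ) σ (neg_ne_zero.2 hσ) hσ
  obtain ⟨xb, hxb⟩ := hxs b hb 1
  have hy1 := hCT (c8 F 2) b _ xb (hC 2) hb hb2 (hT 2) hxb
  have hn3 : IsX CartanMatrix.E₈ ((-1 : F) • c8 F 3) 1 (gw8 F (tw8 3))⁻¹ :=
    hsc _ _ _ (hC 3) (hinv _ _ _ (hC 3) (hT 3))
  have hEn3 : Ex CartanMatrix.E₈ ((-1 : F) • c8 F 3) :=
    (hEx _ (hC 3)).2.2.2.1 (-1) (neg_ne_zero.2 one_ne_zero)
  have hfn3 : fm CartanMatrix.E₈ ((-1 : F) • c8 F 3) b = σ := by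
    rw [T11ZM2_fm_smul_left, hb3]
    ring
  have hy2 := hCT ((-1 : F) • c8 F 3) b _ xb hEn3 hb hfn3 hn3 hxb
  by_cases hs : 1 - σ = 0
  · have hσ1 : σ = 1 := (sub_eq_zero.1 hs).symm
    have hy0 := hCT (c8 F 0) (c8 F 1) _ _ (hC 0) (hC 1) (by rw [cv1, hσ1]) (hT 0) (hT 1)
    obtain ⟨a, d, a', ha, hd, ha', had, ha'd, hx⟩ := hT11SGL 8 CartanMatrix.E₈ F hβ (c8 F 4) σ (hC 4) hσ
    obtain ⟨xa, hxa⟩ := hxs a ha 1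
    obtain ⟨xa', hxa'⟩ := hxs a' ha' 1
    obtain ⟨xd, hxd⟩ := hxs d hd 1
    have hy3 := hCT a' d xa' xd ha' hd ha'd hxa' hxd
    have hy4 := hCT a d xa xd ha hd had hxa hxd
    have e1 : gw8 F (tw8 4) * xa = xa' := by
      ext1 v
      rw [hxa' v, ← hx v, ← hxa v, ← hT 4 (xa v)]
      rfl
    refine T11ZM2_pack _ _ _ _ _ _ hy0 hy1 hy2 hy3 hy4 ?_
    exact T11ZM2_h1 _ _ _ _ _ xb xa xa' xd e1 hzN
  · obtain ⟨S, hS⟩ := hxs (c8 F 0) (hC 0) (1 - σ)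
    obtain ⟨R, hRx⟩ := hxs (c8 F 0) (hC 0) σ
    have hSR : S * R = gw8 F (tw8 0) := by
      have h1 := (hEx _ (hC 0)).2.2.2.2.2.2.2.2 (1 - σ) σ S R hS hRx
      rw [sub_add_cancel] at h1
      exact T11ZM2_eq h1 (hT 0)
    have hy0 := hCT (σ • c8 F 0) (c8 F 1) R _ ((hEx _ (hC 0)).2.2.2.1 σ hσ) (hC 1)
      (by rw [T11ZM2_fm_smul_left, cv1, mul_one]) (hsc _ _ _ (hC 0) hRx) (hT 1)
    have hk : -σ / (1 - σ) ≠ 0 := div_ne_zero (neg_ne_zero.2 hσ) hs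
    obtain ⟨b', hb', hb'0, hb'4⟩ := hT11BEX 8 CartanMatrix.E₈ F j0 th8 δ hI (c8 F 0) (c8 F 4) (hC 0) (hC 4)
      cv3 (-σ / (1 - σ)) σ hk hσ
    obtain ⟨xb', hxb'⟩ := hxs b' hb' 1
    have hy3 := hCT (c8 F 4) b' _ xb' (hC 4) hb' hb'4 (hT 4) hxb'
    have hnS : IsX CartanMatrix.E₈ ((-(1 - σ)) • c8 F 0) 1 S⁻¹ :=
      hsc _ _ _ (hC 0) (hinv _ _ _ (hC 0) hS)
    have hfS : fm CartanMatrix.E₈ ((-(1 - σ)) • c8 F 0) b' = σ := by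
      rw [T11ZM2_fm_smul_left, hb'0]
      field_simp
    have hy4 := hCT ((-(1 - σ)) • c8 F 0) b' S⁻¹ xb'
      ((hEx _ (hC 0)).2.2.2.1 _ (neg_ne_zero.2 hs)) hb' hfS hnS hxb'
    refine T11ZM2_pack _ _ _ _ _ _ hy0 hy1 hy2 hy3 hy4 ?_
    exact T11ZM2_h2 _ _ _ _ _ xb xb' S R hSR hzN

end Pool.Agent.EXC
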